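import Pool.Agent.W528.HD.Stm

/-! HD-GN: norms of Gauss sums. -/

set_option autoImplicit false

namespace Pool.Agent.W551.HD.GN

theorem main : Pool.Agent.W528.HD.GN := by
  intro c _ L _ _ _ ψ hψ
  classical
  have hψ1 : ψ ≠ 1 := by
    rintro rfl
    have h := hψ (a := 1) one_ne_zero
    apply h
    ext x
    simp
  refine ⟨?_, ?_⟩
  · rw [gaussSum_one_left hψ1, norm_neg, norm_one]
  · intro θ hθ
    have h3 := congrArg norm (gaussSum_mul_gaussSum_eq_card hθ hψ)
    have h4 := congrArg norm (mul_gaussSum_inv_eq_gaussSum θ⁻¹ ψ)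
    have h5 : ‖θ⁻¹ (-1)‖ = 1 := by
      have e : θ⁻¹ (-1) * θ⁻¹ (-1) = 1 := by
        rw [← map_mul, neg_mul_neg, one_mul, map_one]
      have e2 := congrArg norm e
      rw [norm_mul, norm_one] at e2
      nlinarith [norm_nonneg (θ⁻¹ (-1))]
    rw [norm_mul, h5, one_mul] at h4
    rw [norm_mul, h4] at h3
    exact h3

end Pool.Agent.W551.HD.GN
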